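import Pool.Agent.H69.OC.Targets

/-!
# DEL, MONO: planar structures of subgraphs
-/

set_option autoImplicit false
set_option linter.unusedSectionVars false
open scoped Classical
open Finset

namespace Pool.Agent.H24.OC

open Pool.Agent.H69.OC Pool.Agent.H69.OC.DG

section perm
variable {D : Type}

/-- skip the element `x` in the permutation `s` -/
noncomputable def sk (s : Equiv.Perm D) (x : D) : Equiv.Perm D := s * Equiv.swap x (s⁻¹ x)

theorem sk_of_ne {s : Equiv.Perm D} {x d : D} (hd : d ≠ x) :
    sk s x d = if s d = x then s x else s d := by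
  rw [sk, Equiv.Perm.mul_apply]
  split_ifs with h
  · have h1 : d = s⁻¹ x := by rw [← h]; simp
    rw [← h1, Equiv.swap_apply_right]
  · have h1 : d ≠ s⁻¹ x := by
      intro h1
      apply h
      rw [h1]
      simp
    rw [Equiv.swap_apply_of_ne_of_ne hd h1]

theorem sk_same {s : Equiv.Perm D} {x : D} : ∀ (n : ℕ) (d d' : D), d ≠ x → d' ≠ x →
    (s ^ n) d = d' → (sk s x).SameCycle d d' := by
  intro n
  induction n using Nat.strong_induction_on with
  | _ n ih =>
    intro d d' hd hd' h
    cases n with
    | zero =>
      have h1 : d = d' := by simpa using h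
      rw [h1]
    | succ m =>
      have h1 : (s ^ m) (s d) = d' := by
        rw [← h, pow_succ, Equiv.Perm.mul_apply]
      have hstep : (sk s x).SameCycle d (sk s x d) := ⟨1, by simp⟩
      by_cases hx : s d = x
      · rw [hx] at h1
        have h2 : sk s x d = s x := by rw [sk_of_ne hd, if_pos hx]
        cases m with
        | zero =>
          exact absurd (by simpa using h1.symm) hd'
        | succ l =>
          have h3 : (s ^ l) (s x) = d' := by
            rw [← h1, pow_succ, Equiv.Perm.mul_apply]
          have h4 : s x ≠ x := by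
            intro h4
            have h5 : ∀ l : ℕ, (s ^ l) x = x := by
              intro l
              induction l with
              | zero => simp
              | succ l ihl => rw [pow_succ, Equiv.Perm.mul_apply, h4, ihl]
            rw [h4, h5] at h3
            exact hd' h3.symm
          have h5 := ih l (by omega) (s x) d' h4 hd' h3
          rw [h2] at hstep
          exact hstep.trans h5
      · have h2 : sk s x d = s d := by rw [sk_of_ne hd, if_neg hx]
        rw [h2] at hstep
        exact hstep.trans (ih m (by omega) (s d) d' hx hd' h1)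

end perm

variable {V D : Type} [Fintype V] [Fintype D] {G : DG V D}

theorem rot_sk {B : Finset D} {s : Equiv.Perm D} (h : G.Rot B s) {x : D} (hx : x ∈ B) :
    G.Rot (B.erase x) (sk s x) := by
  obtain ⟨h1, h2⟩ := h
  constructor
  · intro d hd
    obtain ⟨hdx, hdB⟩ := mem_erase.1 hd
    rw [sk_of_ne hdx, mem_erase]
    split_ifs with h3
    · refine ⟨⟨?_, (h1 x hx).1⟩, ?_⟩
      · intro h4
        exact hdx (s.injective (h3.trans h4.symm))
      · rw [(h1 x hx).2, ← (h1 d hdB).2, h3]
    · exact ⟨⟨h3, (h1 d hdB).1⟩, (h1 d hdB).2⟩
  · intro d hd d' hd' he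
    obtain ⟨hdx, hdB⟩ := mem_erase.1 hd
    obtain ⟨hdx', hdB'⟩ := mem_erase.1 hd'
    obtain ⟨n, hn⟩ := (h2 d hdB d' hdB' he).exists_nat_pow_eq
    exact sk_same n d d' hdx hdx' hn

theorem face_sk {B : Finset D} {s : Equiv.Perm D} {g : D → ℕ}
    (h : ∀ c ∈ B, g (s c) = g (G.inv c)) {x : D} (hx : x ∈ B) (hg : g x = g (G.inv x)) :
    ∀ c ∈ B.erase x, g (sk s x c) = g (G.inv c) := by
  intro c hc
  obtain ⟨hcx, hcB⟩ := mem_erase.1 hc
  rw [sk_of_ne hcx]
  split_ifs with h3
  · rw [h x hx, ← hg, ← h c hcB, h3]
  · exact h c hcB

theorem sum_sel {M : Type} [AddCommMonoid M] (A : Finset D) (q : D → Prop) [DecidablePred q]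
    (y : D → M) : ∑ d ∈ sel A q, y d = ∑ d ∈ A, if q d then y d else 0 := by
  unfold sel
  rw [Finset.sum_filter]
  refine Finset.sum_congr rfl fun d _ => ?_
  by_cases h : q d
  · rw [if_pos h, if_pos h]
  · rw [if_neg h, if_neg h]

theorem t_del : T_DEL := by
  intro V D _ _ G A e hA he hP
  obtain ⟨s, f, hR, hf, hE⟩ := hP
  have hie : G.inv e ∈ A := hA e he
  have hne : G.inv e ≠ e := G.inv_ne e
  have hie' : G.inv e ∈ A.erase e := mem_erase.2 ⟨hne, hie⟩
  have hAe : A \ {e, G.inv e} = (A.erase e).erase (G.inv e) := by
    ext d
    simp only [mem_sdiff, mem_insert, mem_singleton, mem_erase, not_or]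
    tauto
  let g : D → ℕ := fun d => if f d = f e then f (G.inv e) else f d
  have hge : g e = f (G.inv e) := by simp [g]
  have hgi : g (G.inv e) = f (G.inv e) := by
    by_cases h : f (G.inv e) = f e <;> simp [g, h]
  have hgs : ∀ c ∈ A, g (s c) = g (G.inv c) := by
    intro c hc
    have h1 : f (s c) = f (G.inv c) := by
      have := hf (G.inv c) (hA c hc)
      rwa [G.inv_inv] at this
    simp only [g, h1]
  have hg1 : ∀ c ∈ A.erase e, g (sk s e c) = g (G.inv c) :=
    face_sk hgs he (hge.trans hgi.symm)
  have hg2 : ∀ c ∈ (A.erase e).erase (G.inv e), g (sk (sk s e) (G.inv e) c) = g (G.inv c) :=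
    face_sk hg1 hie' (by rw [G.inv_inv, hge, hgi])
  refine ⟨sk (sk s e) (G.inv e), g, ?_, ?_, ?_⟩
  · rw [hAe]
    exact rot_sk (rot_sk hR he) hie'
  · intro d hd
    have hd' : G.inv d ∈ A \ {e, G.inv e} := (cl_sdiff_pair hA e) d hd
    rw [hAe] at hd'
    have := hg2 _ hd'
    rwa [G.inv_inv] at this
  · intro x hx hsum
    let A' := A \ {e, G.inv e}
    let t : ZMod 2 := ∑ d ∈ A', if f d = f e then x d else 0
    let y : D → ZMod 2 := fun d => if d = e ∨ d = G.inv e then t else x d
    have hy : ∀ d, y (G.inv d) = y d := by
      intro d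
      have h1 : (G.inv d = e ∨ G.inv d = G.inv e) ↔ (d = e ∨ d = G.inv e) := by
        constructor
        · rintro (h | h)
          · right; rw [← h, G.inv_inv]
          · left; exact inv_inj h
        · rintro (h | h)
          · right; rw [h]
          · left; rw [h, G.inv_inv]
      simp only [y, h1, hx]
    have hsplit : ∀ φ : D → ZMod 2, ∑ d ∈ A, φ d = ∑ d ∈ A', φ d + (φ e + φ (G.inv e)) := by
      intro φ
      have hsub : ({e, G.inv e} : Finset D) ⊆ A := by
        intro d hd
        rw [mem_insert, mem_singleton] at hd
        rcases hd with rfl | rfl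
        · exact he
        · exact hie
      rw [← Finset.sum_sdiff hsub, Finset.sum_pair hne.symm]
    have hyA : ∀ k, ∑ d ∈ A', (if f d = k then y d else 0) =
        ∑ d ∈ A', if f d = k then x d else 0 := by
      intro k
      refine Finset.sum_congr rfl fun d hd => ?_
      have h1 : ¬ (d = e ∨ d = G.inv e) := by
        have := (mem_sdiff.1 hd).2
        rw [mem_insert, mem_singleton] at this
        exact this
      simp only [y, h1, if_false]
    have h2 : ∀ z : ZMod 2, z + z = 0 := by decide
    obtain ⟨W, hW⟩ := hE y hy (by
      intro k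
      have hk := hsum k
      rw [sum_sel] at hk ⊢
      rw [hsplit, hyA]
      have hye : y e = t := by simp [y]
      have hyi : y (G.inv e) = t := by simp [y]
      rw [hye, hyi]
      by_cases hff : f (G.inv e) = f e
      · -- one face
        have hgf : ∀ d, g d = f d := by
          intro d
          by_cases h : f d = f e
          · simp [g, h, hff]
          · simp [g, h]
        simp only [hgf] at hk
        rw [hk, hff, zero_add]
        by_cases h : f e = k
        · simp only [h, if_true]; exact h2 t
        · simp [h]
      · by_cases hk1 : f e = k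
        · subst hk1
          simp only [hff, if_true, if_false, add_zero]
          exact h2 t
        · by_cases hk2 : f (G.inv e) = k
          · subst hk2
            have h3 : ∑ d ∈ A', (if g d = f (G.inv e) then x d else 0) =
                ∑ d ∈ A', ((if f d = f (G.inv e) then x d else 0) +
                  (if f d = f e then x d else 0)) := by
              refine Finset.sum_congr rfl fun d _ => ?_
              by_cases h : f d = f e
              · have h' : f d ≠ f (G.inv e) := fun h' => hff (h'.symm.trans h)
                simp [g, h, hk1]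
              · simp [g, h]
            rw [h3, Finset.sum_add_distrib] at hk
            simp only [hk1, if_true, if_false, zero_add]
            exact hk
          · have h3 : ∀ d, (g d = k) ↔ (f d = k) := by
              intro d
              by_cases h : f d = f e
              · simp [g, h, hk1, hk2]
              · simp [g, h]
            simp only [h3] at hk
            rw [hk]
            simp [hk1, hk2])
    refine ⟨W, fun d hd => ?_⟩
    rw [← hW d (mem_sdiff.1 hd).1]
    have h1 : ¬ (d = e ∨ d = G.inv e) := by
      have := (mem_sdiff.1 hd).2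
      rw [mem_insert, mem_singleton] at this
      exact this
    simp only [y, h1, if_false]

theorem t_mono : T_MONO := by
  intro V D _ _ G A B hA hB hBA hP
  induction hn : (A \ B).card using Nat.strong_induction_on generalizing A with
  | _ n ih =>
    by_cases h0 : (A \ B).Nonempty
    · obtain ⟨e, he⟩ := h0
      obtain ⟨heA, heB⟩ := mem_sdiff.1 he
      have hsub : B ⊆ A \ {e, G.inv e} := by
        intro d hd
        rw [mem_sdiff, mem_insert, mem_singleton]
        refine ⟨hBA hd, ?_⟩
        rintro (rfl | rfl)
        · exact heB hd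
        · exact heB ((hB.mem_iff).1 hd)
      refine ih _ ?_ (A \ {e, G.inv e}) (cl_sdiff_pair hA e) hsub (t_del V D G A e hA heA hP) rfl
      rw [← hn]
      apply Finset.card_lt_card
      rw [Finset.ssubset_iff_of_subset (Finset.sdiff_subset_sdiff Finset.sdiff_subset
        (Finset.Subset.refl _))]
      refine ⟨e, he, ?_⟩
      simp
    · rw [Finset.not_nonempty_iff_eq_empty, Finset.sdiff_eq_empty_iff_subset] at h0
      rw [Finset.Subset.antisymm hBA h0]
      exact hP

end Pool.Agent.H24.OC
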