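import Pool.Agent.H69.OC.Targets
import Pool.Agent.H24.OC.DEL

/-!
# LAB: good labels of the faces
-/

set_option autoImplicit false
set_option linter.unusedSectionVars false
open scoped Classical
open Finset

namespace Pool.Agent.H24.OC

open Pool.Agent.H69.OC Pool.Agent.H69.OC.DG

theorem t_lab : T_LAB := by
  intro V D _ _ G A hA hP
  obtain ⟨s, f, hR, hf, hE⟩ := hP
  obtain ⟨hR1, hR2⟩ := hR
  let iv : Equiv.Perm D := ⟨G.inv, G.inv, G.inv_inv, G.inv_inv⟩
  let phi : Equiv.Perm D := s * iv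
  have hphi : ∀ d, phi d = s (G.inv d) := fun d => rfl
  have hphiA : ∀ d ∈ A, phi d ∈ A := fun d hd => (hR1 _ (hA d hd)).1
  obtain ⟨enc, henc⟩ := exists_injective_nat (Quotient (Equiv.Perm.SameCycle.setoid phi))
  let g : D → ℕ := fun d => enc (Quotient.mk (Equiv.Perm.SameCycle.setoid phi) d)
  have hg : ∀ d d', g d = g d' ↔ phi.SameCycle d d' := by
    intro d d'
    constructor
    · intro h
      exact Quotient.exact (henc h)
    · intro h
      exact congrArg enc (Quotient.sound h)
  have hgphi : ∀ d, g (phi d) = g d := by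
    intro d
    rw [hg]
    have h : phi.SameCycle d (phi d) := ⟨1, by simp⟩
    exact h.symm
  have hpow : ∀ (n : ℕ) (d : D), d ∈ A → (phi ^ n) d ∈ A ∧ f ((phi ^ n) d) = f d := by
    intro n
    induction n with
    | zero => intro d hd; exact ⟨by simpa using hd, by simp⟩
    | succ n ih =>
      intro d hd
      rw [pow_succ', Equiv.Perm.mul_apply]
      obtain ⟨h1, h2⟩ := ih d hd
      refine ⟨hphiA _ h1, ?_⟩
      rw [hphi, hf _ h1, h2]
  have hconst : ∀ d ∈ A, ∀ d', g d = g d' → d' ∈ A ∧ f d' = f d := by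
    intro d hd d' h
    obtain ⟨n, hn⟩ := ((hg d d').1 h).exists_nat_pow_eq
    rw [← hn]
    exact hpow n d hd
  have hsA : A.image s = A := by
    apply Finset.eq_of_subset_of_card_le
    · intro d hd
      obtain ⟨c, hc, rfl⟩ := mem_image.1 hd
      exact (hR1 c hc).1
    · rw [Finset.card_image_of_injective _ s.injective]
  refine ⟨g, ?_, ?_, ?_⟩
  · intro v k
    symm
    refine Finset.card_bij (fun d _ => s d) ?_ ?_ ?_
    · intro d hd
      obtain ⟨hdA, hdv, hdk⟩ := mem_sel.1 hd
      refine mem_sel.2 ⟨(hR1 d hdA).1, ?_, ?_⟩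
      · rw [(hR1 d hdA).2, hdv]
      · have := hgphi (G.inv d)
        rw [hphi, G.inv_inv] at this
        rw [this, hdk]
    · intro d _ d' _ h
      exact s.injective h
    · intro c hc
      obtain ⟨hcA, hcv, hck⟩ := mem_sel.1 hc
      have hc' : c ∈ A.image s := by rw [hsA]; exact hcA
      obtain ⟨d, hd, rfl⟩ := mem_image.1 hc'
      refine ⟨d, mem_sel.2 ⟨hd, ?_, ?_⟩, rfl⟩
      · rw [← (hR1 d hd).2, hcv]
      · have := hgphi (G.inv d)
        rw [hphi, G.inv_inv] at this
        rw [← this, hck]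
  · intro x hx hsum
    refine hE x hx fun k => ?_
    have hmaps : ∀ d ∈ sel A (fun d => f d = k), g d ∈ A.image g := fun d hd =>
      mem_image_of_mem g (mem_sel.1 hd).1
    rw [← Finset.sum_fiberwise_of_maps_to hmaps]
    refine Finset.sum_eq_zero fun c _ => ?_
    by_cases h : ∃ d0 ∈ A, g d0 = c ∧ f d0 = k
    · obtain ⟨d0, hd0, hgc, hfk⟩ := h
      rw [← hsum c]
      refine Finset.sum_congr ?_ fun _ _ => rfl
      ext d
      rw [mem_filter, mem_sel, mem_sel]
      constructor
      · rintro ⟨⟨h1, _⟩, h3⟩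
        exact ⟨h1, h3⟩
      · rintro ⟨h1, h3⟩
        refine ⟨⟨h1, ?_⟩, h3⟩
        rw [(hconst d0 hd0 d (hgc.trans h3.symm)).2, hfk]
    · refine Finset.sum_eq_zero fun d hd => ?_
      exfalso
      apply h
      rw [mem_filter, mem_sel] at hd
      exact ⟨d, hd.1.1, hd.2, hd.1.2⟩
  · intro S hS _ hcl d hd d' hd' h
    have hstep : ∀ d ∈ S, phi d ∈ S := by
      intro d hd
      refine hcl d hd (phi d) (hphiA d (hS hd)) ?_ (hgphi d)
      rw [hphi, (hR1 _ (hA d (hS hd))).2]
      rfl
    have hall : ∀ n : ℕ, (phi ^ n) d ∈ S := by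
      intro n
      induction n with
      | zero => simpa using hd
      | succ n ih => rw [pow_succ', Equiv.Perm.mul_apply]; exact hstep _ ih
    obtain ⟨n, hn⟩ := ((hg d d').1 h.symm).exists_nat_pow_eq
    rw [← hn]
    exact hall n

end Pool.Agent.H24.OC
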