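import Pool.Agent.H69.OC.Targets
import Pool.Agent.H24.OC.DEL

/-!
# NORM: a part with four dangling edges, not containing the ends of `e`, is a pocket
-/

set_option autoImplicit false
set_option linter.unusedSectionVars false
open scoped Classical
open Finset

namespace Pool.Agent.H24.OC

open Pool.Agent.H69.OC Pool.Agent.H69.OC.DG

theorem t_norm : T_NORM := by
  intro V D _ _ G hcub h3 h4 e f hbal heul horb S hse hte hcut hS hSc
  have hnotin : ∀ d, G.Tc S d → d ∈ (univ \ {e, G.inv e} : Finset D) := by
    intro d hd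
    rw [mem_sdiff, mem_insert, mem_singleton]
    refine ⟨mem_univ _, ?_⟩
    rintro (rfl | rfl)
    · rcases hd with h | h
      · exact hse h
      · exact hte h
    · rcases hd with h | h
      · exact hte h
      · rw [tgt_inv] at h
        exact hse h
  refine { bal := ?_, eul := ?_, orb := ?_, four := hcut, big := hS, co := by omega }
  · intro v hv k
    have h := hbal v k
    have e1 : (sel univ fun d => G.src d = v ∧ f d = k) =
        sel (univ \ {e, G.inv e}) fun d => G.src d = v ∧ f d = k :=
      sel_congr fun d => ⟨fun h => ⟨hnotin d (Or.inl (h.2.1.symm ▸ hv)), h.2⟩,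
        fun h => ⟨mem_univ _, h.2⟩⟩
    have e2 : (sel univ fun d => G.src d = v ∧ f (G.inv d) = k) =
        sel (univ \ {e, G.inv e}) fun d => G.src d = v ∧ f (G.inv d) = k :=
      sel_congr fun d => ⟨fun h => ⟨hnotin d (Or.inl (h.2.1.symm ▸ hv)), h.2⟩,
        fun h => ⟨mem_univ _, h.2⟩⟩
    rw [e1, e2]
    exact h
  · intro x hx hx0 hsum
    obtain ⟨W0, hW0⟩ := heul x hx (by
      intro k
      rw [← hsum k, sum_sel, sum_sel]
      have hsub : (univ \ {e, G.inv e} : Finset D) ⊆ univ := subset_univ _
      have h1 : ∑ d : D, (if G.Tc S d ∧ f d = k then x d else 0) =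
          ∑ d ∈ (univ \ {e, G.inv e} : Finset D), if G.Tc S d ∧ f d = k then x d else 0 := by
        symm
        apply Finset.sum_subset hsub
        intro d _ hd
        rw [if_neg]
        rintro ⟨h, _⟩
        exact hd (hnotin d h)
      rw [h1]
      refine Finset.sum_congr rfl fun d _ => ?_
      by_cases hT : G.Tc S d
      · by_cases hk : f d = k
        · rw [if_pos hk, if_pos ⟨hT, hk⟩]
        · rw [if_neg hk, if_neg fun h => hk h.2]
      · rw [hx0 d hT]
        simp)
    -- the complement of `S` does not meet both sides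
    have hside : (∀ v ∉ S, v ∈ W0) ∨ (∀ v ∉ S, v ∉ W0) := by
      by_contra hno
      rw [not_or] at hno
      obtain ⟨ha, hb⟩ := hno
      push Not at ha hb
      obtain ⟨a, haS, haW⟩ := ha
      obtain ⟨b, hbS, hbW⟩ := hb
      let Z : Finset V := Sᶜ ∩ W0
      let Z' : Finset V := Sᶜ \ W0
      have hbZ : b ∈ Z := mem_inter.2 ⟨mem_compl.2 hbS, hbW⟩
      have haZ' : a ∈ Z' := mem_sdiff.2 ⟨mem_compl.2 haS, haW⟩
      have hSne : S.Nonempty := card_pos.1 (by omega)
      obtain ⟨s0, hs0⟩ := hSne
      have hZu : Z ≠ univ := by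
        intro h
        have : s0 ∈ Z := by rw [h]; exact mem_univ _
        exact (mem_compl.1 (mem_inter.1 this).1) hs0
      have hZu' : Z' ≠ univ := by
        intro h
        have : s0 ∈ Z' := by rw [h]; exact mem_univ _
        exact (mem_compl.1 (mem_sdiff.1 this).1) hs0
      have c1 := h3 Z ⟨b, hbZ⟩ hZu
      have c2 := h3 Z' ⟨a, haZ'⟩ hZu'
      have hE : ∀ d, (G.src d ∈ Z ∧ G.tgt d ∈ Z') ∨ (G.src d ∈ Z' ∧ G.tgt d ∈ Z) →
          d ∈ ({e, G.inv e} : Finset D) := by
        intro d hd
        by_contra hde
        have hdA : d ∈ (univ \ {e, G.inv e} : Finset D) := mem_sdiff.2 ⟨mem_univ _, hde⟩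
        have h1 := hW0 d hdA
        have hT : ¬ G.Tc S d := by
          rintro (h | h)
          · rcases hd with hd | hd
            · exact (mem_compl.1 (mem_inter.1 hd.1).1) h
            · exact (mem_compl.1 (mem_sdiff.1 hd.1).1) h
          · rcases hd with hd | hd
            · exact (mem_compl.1 (mem_sdiff.1 hd.2).1) h
            · exact (mem_compl.1 (mem_inter.1 hd.2).1) h
        rw [hx0 d hT] at h1
        have h2 := (ind_add_ind).1 h1.symm
        rcases hd with hd | hd
        · exact (mem_sdiff.1 hd.2).2 (h2.1 (mem_inter.1 hd.1).2)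
        · exact (mem_sdiff.1 hd.1).2 (h2.2 (mem_inter.1 hd.2).2)
      have hle : (G.cut univ Z).card + (G.cut univ Z').card ≤ 6 := by
        have hd1 : Disjoint (G.cut univ Z) (G.cut univ Z') := by
          rw [Finset.disjoint_left]
          intro d hd hd'
          exact (mem_sdiff.1 (mem_cut.1 hd').2.1).2 (mem_inter.1 (mem_cut.1 hd).2.1).2
        rw [← Finset.card_union_of_disjoint hd1]
        have hsub : G.cut univ Z ∪ G.cut univ Z' ⊆ G.cut univ Sᶜ ∪ {e, G.inv e} := by
          intro d hd
          rw [mem_union]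
          by_cases ht : G.tgt d ∈ S
          · left
            rw [mem_cut]
            refine ⟨mem_univ _, ?_, fun h => (mem_compl.1 h) ht⟩
            rcases mem_union.1 hd with h | h
            · exact (mem_inter.1 (mem_cut.1 h).2.1).1
            · exact (mem_sdiff.1 (mem_cut.1 h).2.1).1
          · right
            apply hE
            rcases mem_union.1 hd with h | h
            · left
              refine ⟨(mem_cut.1 h).2.1, mem_sdiff.2 ⟨mem_compl.2 ht, fun hw => ?_⟩⟩
              exact (mem_cut.1 h).2.2 (mem_inter.2 ⟨mem_compl.2 ht, hw⟩)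
            · right
              refine ⟨(mem_cut.1 h).2.1, mem_inter.2 ⟨mem_compl.2 ht, ?_⟩⟩
              by_contra hw
              exact (mem_cut.1 h).2.2 (mem_sdiff.2 ⟨mem_compl.2 ht, hw⟩)
        calc _ ≤ (G.cut univ Sᶜ ∪ {e, G.inv e}).card := Finset.card_le_card hsub
          _ ≤ (G.cut univ Sᶜ).card + ({e, G.inv e} : Finset D).card := Finset.card_union_le _ _
          _ ≤ 4 + 2 := by
            rw [cut_compl G.cl_univ, hcut]
            exact Nat.add_le_add_left Finset.card_le_two _
      have hZc : S ⊆ Zᶜ := fun v hv => mem_compl.2 fun h => (mem_compl.1 (mem_inter.1 h).1) hv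
      have hZc' : S ⊆ Z'ᶜ := fun v hv => mem_compl.2 fun h => (mem_compl.1 (mem_sdiff.1 h).1) hv
      have k1 := Finset.card_le_card hZc
      have k2 := Finset.card_le_card hZc'
      have l1 : Z.card ≤ 1 := by
        by_contra hcon
        have := h4 Z (by omega) (by omega)
        omega
      have l2 : Z'.card ≤ 1 := by
        by_contra hcon
        have := h4 Z' (by omega) (by omega)
        omega
      have l3 : Sᶜ.card ≤ Z.card + Z'.card := by
        have : Sᶜ ⊆ Z ∪ Z' := by
          intro v hv
          rw [mem_union]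
          by_cases hw : v ∈ W0
          · exact Or.inl (mem_inter.2 ⟨hv, hw⟩)
          · exact Or.inr (mem_sdiff.2 ⟨hv, hw⟩)
        exact (Finset.card_le_card this).trans (Finset.card_union_le _ _)
      omega
    -- replace `W0` by its complement if necessary
    obtain ⟨W, hWS, hW⟩ : ∃ W : Finset V, (∀ v ∉ S, v ∉ W) ∧
        ∀ d ∈ (univ \ {e, G.inv e} : Finset D), x d = ind W (G.src d) + ind W (G.tgt d) := by
      rcases hside with h | h
      · refine ⟨W0ᶜ, fun v hv hv' => (mem_compl.1 hv') (h v hv), fun d hd => ?_⟩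
        rw [hW0 d hd, ind_compl, ind_compl]
        have h2 : ∀ a b : ZMod 2, a + b = 1 + a + (1 + b) := by decide
        exact h2 _ _
      · exact ⟨W0, h, hW0⟩
    refine ⟨W, fun v hv => ?_, fun d => ?_⟩
    · by_contra hvS
      exact hWS v hvS hv
    · by_cases hd : d ∈ (univ \ {e, G.inv e} : Finset D)
      · exact hW d hd
      · have hT : ¬ G.Tc S d := fun h => hd (hnotin d h)
        rw [hx0 d hT]
        have h1 : G.src d ∉ S := fun h => hT (Or.inl h)
        have h2 : G.tgt d ∉ S := fun h => hT (Or.inr h)
        unfold ind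
        rw [if_neg (hWS _ h1), if_neg (hWS _ h2), add_zero]
  · intro R hR hin hcl d hd d' hd' hf
    refine horb R (fun c hc => hnotin c (Or.inl (hin c hc).1)) hR
      (fun c hc c' _ h1 h2 => hcl c hc c' h1 h2) d hd d' (hnotin d' hd') hf

end Pool.Agent.H24.OC
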