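import Pool.Agent.H69.OC.Targets

/-!
# SIX: pockets have at least six vertices if there is no cycle of length four
-/

set_option autoImplicit false
set_option linter.unusedSectionVars false
open scoped Classical
open Finset

namespace Pool.Agent.H24.OC

open Pool.Agent.H69.OC Pool.Agent.H69.OC.DG

variable {V D : Type} [Fintype V] [Fintype D] {G : DG V D}

/-- no loops -/
theorem no_loop (hG : G.Cub) (h3 : G.C3) {v : V} (hv : ({v} : Finset V) ≠ univ) {d : D}
    (h1 : G.src d = v) (h2 : G.tgt d = v) : False := by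
  have hc := h3 {v} (singleton_nonempty v) hv
  have hs := hG v
  have hsub : G.cut univ {v} ⊆ (sel univ fun c => G.src c = v) \ {d, G.inv d} := by
    intro c hcc
    obtain ⟨_, hc1, hc2⟩ := mem_cut.1 hcc
    rw [mem_singleton] at hc1 hc2
    rw [mem_sdiff, mem_sel, mem_insert, mem_singleton]
    refine ⟨⟨mem_univ _, hc1⟩, ?_⟩
    rintro (rfl | rfl)
    · exact hc2 h2
    · rw [tgt_inv] at hc2
      exact hc2 h1
  have hle := card_le_card hsub
  have hpair : ({d, G.inv d} : Finset D) ⊆ sel univ fun c => G.src c = v := by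
    intro c hc
    rw [mem_insert, mem_singleton] at hc
    rcases hc with rfl | rfl
    · exact mem_sel.2 ⟨mem_univ _, h1⟩
    · exact mem_sel.2 ⟨mem_univ _, h2⟩
  rw [card_sdiff_of_subset hpair, card_pair (G.inv_ne d).symm, hs] at hle
  omega

/-- no parallel edges -/
theorem no_parallel (hG : G.Cub) (h3 : G.C3) {v w : V} (_ : v ≠ w)
    (hu : ({v, w} : Finset V) ≠ univ) {a b : D} (hab : a ≠ b) (ha : G.src a = v) (hb : G.src b = v)
    (ha' : G.tgt a = w) (hb' : G.tgt b = w) : False := by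
  have hc := h3 {v, w} (insert_nonempty v _) hu
  have hs := hG v
  have hs' := hG w
  have hsub : G.cut univ {v, w} ⊆ ((sel univ fun c => G.src c = v) \ {a, b}) ∪
      ((sel univ fun c => G.src c = w) \ {G.inv a, G.inv b}) := by
    intro c hcc
    obtain ⟨_, hc1, hc2⟩ := mem_cut.1 hcc
    rw [mem_insert, mem_singleton] at hc1 hc2
    rw [not_or] at hc2
    rw [mem_union, mem_sdiff, mem_sdiff, mem_sel, mem_sel, mem_insert, mem_singleton, mem_insert,
      mem_singleton]
    rcases hc1 with hc1 | hc1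
    · left
      refine ⟨⟨mem_univ _, hc1⟩, ?_⟩
      rintro (rfl | rfl)
      · exact hc2.2 ha'
      · exact hc2.2 hb'
    · right
      refine ⟨⟨mem_univ _, hc1⟩, ?_⟩
      rintro (rfl | rfl)
      · rw [tgt_inv] at hc2
        exact hc2.1 ha
      · rw [tgt_inv] at hc2
        exact hc2.1 hb
  have hle := (card_le_card hsub).trans (card_union_le _ _)
  have hp1 : ({a, b} : Finset D) ⊆ sel univ fun c => G.src c = v := by
    intro c hc
    rw [mem_insert, mem_singleton] at hc
    rcases hc with rfl | rfl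
    · exact mem_sel.2 ⟨mem_univ _, ha⟩
    · exact mem_sel.2 ⟨mem_univ _, hb⟩
  have hp2 : ({G.inv a, G.inv b} : Finset D) ⊆ sel univ fun c => G.src c = w := by
    intro c hc
    rw [mem_insert, mem_singleton] at hc
    rcases hc with rfl | rfl
    · exact mem_sel.2 ⟨mem_univ _, ha'⟩
    · exact mem_sel.2 ⟨mem_univ _, hb'⟩
  rw [card_sdiff_of_subset hp1, card_sdiff_of_subset hp2, card_pair hab,
    card_pair (fun h => hab (inv_inj h)), hs, hs'] at hle
  omega

theorem t_six : T_SIX := by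
  intro V D _ _ G hG h3 h4 hQ X hcut hX hXc
  obtain ⟨k, hk⟩ := cut_parity hG X
  rw [hcut] at hk
  by_contra hlt
  have hX4 : X.card = 4 := by omega
  have hXne : Xᶜ.Nonempty := card_pos.1 (by omega)
  obtain ⟨z, hz⟩ := hXne
  have hz' : z ∉ X := mem_compl.1 hz
  -- inner and outer darts
  let inn : V → Finset D := fun v => sel univ fun d => G.src d = v ∧ G.tgt d ∈ X
  let out : V → Finset D := fun v => sel univ fun d => G.src d = v ∧ ¬ G.tgt d ∈ X
  have hsplit : ∀ v, (inn v).card + (out v).card = 3 := by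
    intro v
    rw [← hG v]
    exact (card_sel_split univ (fun d => G.src d = v) (fun d => G.tgt d ∈ X)).symm
  have hsum : ∑ v ∈ X, (out v).card = 4 := by
    rw [← hcut, cut]
    exact sum_deg univ (fun d => ¬ G.tgt d ∈ X) X
  have hle1 : ∀ v ∈ X, (out v).card ≤ 1 := by
    intro v hv
    have hcard : (X.erase v).card = 3 := by rw [card_erase_of_mem hv, hX4]
    have hcc : 2 ≤ (X.erase v)ᶜ.card := by
      have : Xᶜ ⊆ (X.erase v)ᶜ := compl_subset_compl.2 (erase_subset v X)
      exact hXc.trans (card_le_card this)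
    have hc := h4 (X.erase v) (by omega) hcc
    have hsub : G.cut univ (X.erase v) ⊆ (G.cut univ X \ out v) ∪ (inn v).image G.inv := by
      intro d hd
      obtain ⟨_, hd1, hd2⟩ := mem_cut.1 hd
      obtain ⟨hd1v, hd1X⟩ := mem_erase.1 hd1
      rw [mem_union]
      by_cases htX : G.tgt d ∈ X
      · right
        have htv : G.tgt d = v := by
          by_contra h
          exact hd2 (mem_erase.2 ⟨h, htX⟩)
        refine mem_image.2 ⟨G.inv d, mem_sel.2 ⟨mem_univ _, htv, ?_⟩, G.inv_inv d⟩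
        rw [tgt_inv]
        exact hd1X
      · left
        refine mem_sdiff.2 ⟨mem_cut.2 ⟨mem_univ _, hd1X, htX⟩, fun h => ?_⟩
        exact hd1v (mem_sel.1 h).2.1
    have hout : out v ⊆ G.cut univ X := by
      intro d hd
      obtain ⟨_, hd1, hd2⟩ := mem_sel.1 hd
      exact mem_cut.2 ⟨mem_univ _, hd1.symm ▸ hv, hd2⟩
    have h5 := (card_le_card hsub).trans (card_union_le _ _)
    have h6 : ((inn v).image G.inv).card ≤ (inn v).card := card_image_le
    rw [card_sdiff_of_subset hout, hcut] at h5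
    have h7 := hsplit v
    omega
  have hout1 : ∀ v ∈ X, (out v).card = 1 := by
    have h5 : ∑ v ∈ X, (out v).card = ∑ v ∈ X, 1 := by
      rw [hsum, sum_const, hX4]
      rfl
    exact (Finset.sum_eq_sum_iff_of_le hle1).1 h5
  have hinn : ∀ v ∈ X, ∃ a b, a ≠ b ∧ inn v = {a, b} := by
    intro v hv
    have h5 := hsplit v
    have h6 := hout1 v hv
    exact card_eq_two.1 (by omega)
  have hloop : ∀ v ∈ X, ∀ d, G.src d = v → G.tgt d ≠ v := by
    intro v hv d h1 h2
    refine no_loop hG h3 ?_ h1 h2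
    intro h
    have : z ∈ ({v} : Finset V) := by rw [h]; exact mem_univ _
    rw [mem_singleton] at this
    exact hz' (this ▸ hv)
  have hnb : ∀ v ∈ X, ∃ a b, inn v = {a, b} ∧ G.src a = v ∧ G.src b = v ∧ G.tgt a ∈ X ∧
      G.tgt b ∈ X ∧ G.tgt a ≠ G.tgt b ∧ G.tgt a ≠ v ∧ G.tgt b ≠ v := by
    intro v hv
    obtain ⟨a, b, hab, hi⟩ := hinn v hv
    have ha : a ∈ inn v := by rw [hi]; simp
    have hb : b ∈ inn v := by rw [hi]; simp
    obtain ⟨_, ha1, ha2⟩ := mem_sel.1 ha
    obtain ⟨_, hb1, hb2⟩ := mem_sel.1 hb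
    refine ⟨a, b, hi, ha1, hb1, ha2, hb2, ?_, hloop v hv a ha1, hloop v hv b hb1⟩
    intro h
    have hne := hloop v hv a ha1
    refine no_parallel hG h3 (Ne.symm hne) ?_ hab ha1 hb1 rfl h.symm
    intro hu
    have : z ∈ ({v, G.tgt a} : Finset V) := by rw [hu]; exact mem_univ _
    rw [mem_insert, mem_singleton] at this
    rcases this with h | h
    · exact hz' (h ▸ hv)
    · exact hz' (h ▸ ha2)
  -- the cycle
  obtain ⟨v1, hv1⟩ := card_pos.1 (by omega : 0 < X.card)
  obtain ⟨a, b, hi, ha, hb, haX, hbX, hab, hav, hbv⟩ := hnb v1 hv1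
  obtain ⟨v3, hv3⟩ : (((X.erase v1).erase (G.tgt a)).erase (G.tgt b)).Nonempty := by
    rw [← card_pos, card_erase_of_mem, card_erase_of_mem, card_erase_of_mem hv1, hX4]
    · norm_num
    · exact mem_erase.2 ⟨hav, haX⟩
    · exact mem_erase.2 ⟨Ne.symm hab, mem_erase.2 ⟨hbv, hbX⟩⟩
  obtain ⟨h3b, hv3⟩ := mem_erase.1 hv3
  obtain ⟨h3a, hv3⟩ := mem_erase.1 hv3
  obtain ⟨h31, hv3X⟩ := mem_erase.1 hv3
  have hXeq : ∀ x ∈ X, x = v1 ∨ x = G.tgt a ∨ x = G.tgt b ∨ x = v3 := by
    have h5 : ({v1, G.tgt a, G.tgt b, v3} : Finset V) = X := by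
      apply Finset.eq_of_subset_of_card_le
      · intro x hx
        simp only [mem_insert, mem_singleton] at hx
        rcases hx with rfl | rfl | rfl | rfl
        · exact hv1
        · exact haX
        · exact hbX
        · exact hv3X
      · rw [hX4, card_insert_of_notMem, card_insert_of_notMem, card_pair (Ne.symm h3b)]
        · simp only [mem_insert, mem_singleton, not_or]
          exact ⟨hab, Ne.symm h3a⟩
        · simp only [mem_insert, mem_singleton, not_or]
          exact ⟨Ne.symm hav, Ne.symm hbv, Ne.symm h31⟩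
    intro x hx
    rw [← h5] at hx
    simpa only [mem_insert, mem_singleton] using hx
  obtain ⟨c, d, _, hc, hd, hcX, hdX, hcd, hcv, hdv⟩ := hnb v3 hv3X
  -- `v3` is not a neighbour of `v1`
  have hn31 : ∀ r, G.src r = v3 → G.tgt r ≠ v1 := by
    intro r hr1 hr2
    have : G.inv r ∈ inn v1 := by
      refine mem_sel.2 ⟨mem_univ _, hr2, ?_⟩
      rw [tgt_inv, hr1]
      exact hv3X
    rw [hi, mem_insert, mem_singleton] at this
    rcases this with h | h
    · apply h3a
      rw [← h, tgt_inv, hr1]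
    · apply h3b
      rw [← h, tgt_inv, hr1]
  have hct : G.tgt c = G.tgt a ∨ G.tgt c = G.tgt b := by
    rcases hXeq _ hcX with h | h | h | h
    · exact absurd h (hn31 c hc)
    · exact Or.inl h
    · exact Or.inr h
    · exact absurd h hcv
  have hdt : G.tgt d = G.tgt a ∨ G.tgt d = G.tgt b := by
    rcases hXeq _ hdX with h | h | h | h
    · exact absurd h (hn31 d hd)
    · exact Or.inl h
    · exact Or.inr h
    · exact absurd h hdv
  obtain ⟨c', d', hc', hd', hca, hdb⟩ : ∃ c' d', G.src c' = v3 ∧ G.src d' = v3 ∧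
      G.tgt c' = G.tgt a ∧ G.tgt d' = G.tgt b := by
    rcases hct with h | h
    · rcases hdt with h' | h'
      · exact absurd (h.trans h'.symm) hcd
      · exact ⟨c, d, hc, hd, h, h'⟩
    · rcases hdt with h' | h'
      · exact ⟨d, c, hd, hc, h', h⟩
      · exact absurd (h.trans h'.symm) hcd
  refine hQ a (G.inv c') d' (G.inv b) ?_ ?_ ?_ ?_ ?_ ?_ ?_ ?_ ?_ ?_
  · rw [src_inv, hca]
  · rw [tgt_inv, hc', hd']
  · rw [src_inv, hdb]
  · rw [tgt_inv, hb, ha]
  · rw [ha, src_inv, hca]; exact Ne.symm hav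
  · rw [ha, hd']; exact Ne.symm h31
  · rw [ha, src_inv]; exact Ne.symm hbv
  · rw [src_inv, hca, hd']; exact Ne.symm h3a
  · rw [src_inv, hca, src_inv]; exact hab
  · rw [hd', src_inv]; exact h3b

end Pool.Agent.H24.OC
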